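import Pool.Agent.Lib.helper7.Mag

namespace Pool.Agent.H.MP_cbccc2_co

open Classical Finset Matrix Pool.Agent.Lib.helper7.Mag

section up
variable {V : Type} [Fintype V] {G : SimpleGraph V} {s : V → V → ℂ}

lemma up (hs : Pot G s) (χ : V → Prop) (hχ : ∀ x y, G.Adj x y → (χ x ↔ ¬ χ y))
    (hr : ∀ x, G.degree x = 9) (x y : V) (hxy : x ≠ y) (hx : χ x) (hy : χ y)
    (ht : 1 / 20 ≤ ‖∑ z ∈ G.neighborFinset x, if G.Adj z y then s x z * s z y else 0‖) :
    lam G s ≤ 6 - 1 / 200 := by
  let A : Matrix V V ℂ := fun a b => if G.Adj a b then s a b else 0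
  have hA : ∀ f a, (A *ᵥ f) a = ∑ b ∈ G.neighborFinset a, s a b * f b := by
    intro f a
    simp only [A, mulVec, dotProduct, ite_mul, zero_mul, SimpleGraph.neighborFinset_eq_filter,
      sum_filter]
  have hH : A.IsHermitian := by
    ext a b
    simp only [A, conjTranspose_apply, G.adj_comm b a]
    split_ifs with h1
    · rw [(hs a b h1).2, Complex.inv_eq_conj (hs a b h1).1]; simp
    · simp
  have hB : ∀ a, (A * A) a a = 9 := by
    intro a
    have : ∀ b, A a b * A b a = if G.Adj a b then 1 else 0 := by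
      intro b
      simp only [A, G.adj_comm b a]
      split_ifs with h
      · rw [(hs a b h).2, mul_inv_cancel₀ fun h0 => by simpa [h0] using (hs a b h).1]
      · simp
    simp only [mul_apply, this]
    rw [← G.degree_eq_sum_if_adj, hr]; simp
  have hw : (A * A) x y = ∑ z ∈ G.neighborFinset x, if G.Adj z y then s x z * s z y else 0 := by
    simp only [mul_apply, A, SimpleGraph.neighborFinset_eq_filter, sum_filter]
    exact sum_congr rfl fun z _ => by split_ifs <;> simp
  rw [← hw] at ht
  have hw' : (A * A) y x = star ((A * A) x y) := by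
    have : (A * A).IsHermitian := by rw [IsHermitian, conjTranspose_mul, hH.eq]
    rw [← this.apply y x]
  obtain ⟨w, ew⟩ : ∃ w, (A * A) x y = w := ⟨_, rfl⟩
  rw [ew] at ht hw'
  obtain ⟨t, et⟩ : ∃ t, ‖w‖ = t := ⟨_, rfl⟩
  rw [et] at ht
  have t0 : (t : ℂ) ≠ 0 := by
    have : t ≠ 0 := by linarith
    exact_mod_cast this
  have ww : star w * w = (t : ℂ) ^ 2 := by rw [← et]; exact Complex.conj_mul' w
  let e : V → ℂ := Pi.single x 1 + Pi.single y (star w / t)
  have par : ∀ (P : V → Prop) (f g : V → ℂ), (∀ a, P a → f a = 0) → (∀ a, ¬ P a → g a = 0) →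
      star f ⬝ᵥ g = 0 := fun P f g h1 h2 => sum_eq_zero fun a _ => by
    by_cases h : P a
    · simp [h1 a h]
    · simp [h2 a h]
  have e0 : ∀ a, ¬ χ a → e a = 0 := fun a h => by
    have h1 : a ≠ x := by rintro rfl; exact h hx
    have h2 : a ≠ y := by rintro rfl; exact h hy
    simp [e, h1, h2]
  have u0 : ∀ a, χ a → (A *ᵥ e) a = 0 := fun a h => by
    rw [hA]
    exact sum_eq_zero fun b hb => by rw [e0 b ((hχ a b (by simpa using hb)).1 h), mul_zero]
  have v0 : ∀ a, ¬ χ a → (A *ᵥ (A *ᵥ e)) a = 0 := fun a h => by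
    rw [hA]
    exact sum_eq_zero fun b hb => by
      rw [u0 b (by have := hχ a b (by simpa using hb); tauto), mul_zero]
  have k1 : star e ⬝ᵥ (A *ᵥ e) = 0 := par (fun a => ¬ χ a) _ _ e0 fun a h => u0 a (not_not.1 h)
  have k2 : star (A *ᵥ e) ⬝ᵥ e = 0 := par χ _ _ u0 e0
  have k3 : star (A *ᵥ e) ⬝ᵥ (A *ᵥ (A *ᵥ e)) = 0 := par χ _ _ u0 v0
  have cs : star (star w / t) = w / t := by
    rw [star_div₀, star_star, Complex.star_def, Complex.conj_ofReal]
  have cc : star (star w / t) * (star w / t) = 1 := by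
    rw [cs]
    field_simp
    linear_combination ww
  have k4 : star e ⬝ᵥ e = 2 := by
    simp only [e, star_add, ← Pi.single_star, add_dotProduct, single_dotProduct, Pi.add_apply,
      Pi.single_eq_same, Pi.single_eq_of_ne hxy, Pi.single_eq_of_ne hxy.symm, star_one]
    linear_combination cc
  have k5 : star e ⬝ᵥ (A *ᵥ (A *ᵥ e)) = 18 + 2 * t := by
    rw [mulVec_mulVec]
    simp only [e, star_add, ← Pi.single_star, add_dotProduct, single_dotProduct, mulVec_add,
      Pi.add_apply, mulVec_single, hB, ew, hw', Pi.smul_apply, col_apply, MulOpposite.smul_eq_mul_unop, MulOpposite.unop_op]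
    have c1 : w * (star w / t) = t := by
      field_simp
      linear_combination ww
    have c2 : star (star w / t) * star w = t := by
      rw [cs]
      field_simp
      linear_combination ww
    rw [star_one]
    linear_combination 9 * cc + c1 + c2
  have k6 : star (A *ᵥ e) ⬝ᵥ (A *ᵥ e) = 18 + 2 * t := by
    rw [star_mulVec, hH.eq, ← dotProduct_mulVec, k5]
  refine lam_le G s hs _ ((3 : ℂ) • e + A *ᵥ e) (fun h => ?_) ?_
  · have := congrFun h x
    rw [Pi.add_apply, u0 x hx] at this
    simp [e, hxy] at this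
  · have : ∀ g : V → ℂ, ∑ a, star (g a) * (∑ b ∈ G.neighborFinset a, (g a - s a b * g b) -
        ((6 - 1 / 200 : ℝ) : ℂ) * g a) = (3 + 1 / 200) * (star g ⬝ᵥ g) - star g ⬝ᵥ (A *ᵥ g) := by
      intro g
      simp only [dotProduct, Finset.mul_sum, ← sum_sub_distrib, hA]
      refine sum_congr rfl fun a _ => ?_
      rw [sum_sub_distrib, sum_const, SimpleGraph.card_neighborFinset_eq_degree, hr,
        ← Finset.mul_sum]
      simp only [Pi.star_apply, nsmul_eq_mul]
      push_cast; ring
    rw [this]
    simp only [star_add, star_smul, add_dotProduct, dotProduct_add, mulVec_add, mulVec_smul,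
      smul_dotProduct, dotProduct_smul, k1, k2, k3, k4, k5, k6, smul_eq_mul]
    have : ∀ z : ℂ, z = ((18 / 100 - 599 / 100 * t : ℝ) : ℂ) → z.re ≤ 0 := by
      rintro z rfl
      rw [Complex.ofReal_re]; linarith
    apply this
    simp only [star_ofNat]
    push_cast; ring

end up

abbrev W (n : ℕ) := Fin n → ZMod 2

def cay {n : ℕ} (s : Fin 9 → W n) : SimpleGraph (W n) :=
  SimpleGraph.fromRel fun x y => ∃ i, y = x + s i

lemma two {n : ℕ} (x a : W n) : x + a + a = x := by
  ext i
  simp [add_assoc, CharTwo.add_self_eq_zero]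

lemma adj {n : ℕ} {s : Fin 9 → W n} (h : ∀ i, s i ≠ 0) (x y : W n) :
    (cay s).Adj x y ↔ ∃ i, y = x + s i := by
  rw [cay, SimpleGraph.fromRel_adj]
  constructor
  · rintro ⟨-, h | ⟨i, rfl⟩⟩
    · exact h
    · exact ⟨i, (two _ _).symm⟩
  · rintro ⟨i, rfl⟩
    exact ⟨by simpa using h i, Or.inl ⟨i, rfl⟩⟩

lemma nsum {n : ℕ} {s : Fin 9 → W n} (h : ∀ i, s i ≠ 0) (hi : Function.Injective s) (x : W n)
    {M : Type*} [AddCommMonoid M] (f : W n → M) :
    ∑ y ∈ (cay s).neighborFinset x, f y = ∑ i, f (x + s i) := by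
  have : (cay s).neighborFinset x = univ.image fun i => x + s i := by
    ext y; simp [adj h, eq_comm]
  rw [this, sum_image fun i _ j _ e => hi (add_left_cancel e)]

def gen : Fin 9 → W 7 := ![![1,0,0,0,0,0,0], ![0,1,0,0,0,0,0], ![0,0,1,0,0,0,0], ![0,0,0,1,0,0,0],
  ![0,0,0,0,1,0,0], ![1,1,1,1,1,0,0], ![0,0,0,0,0,1,0], ![0,0,0,0,0,0,1], ![1,1,1,0,0,1,1]]

def bas (i : Fin 9) : W 9 := Pi.single i 1

lemma gen0 : ∀ i, gen i ≠ 0 := by decide
lemma geni : Function.Injective gen := by decide
lemma gens : ∀ i j k l, i ≠ j → gen i + gen j = gen k + gen l → k = i ∨ k = j := by decide +kernel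
lemma genp : ∀ i, ∑ k, gen i k = 1 := by decide
lemma bas0 : ∀ i, bas i ≠ 0 := by decide
lemma basi : Function.Injective bas := by decide

noncomputable def sgn (z : ZMod 2) : ℂ := if z = 0 then 1 else -1

lemma sgn_add (a b : ZMod 2) : sgn (a + b) = sgn a * sgn b := by
  have h : (1 + 1 : ZMod 2) = 0 := by decide
  have h0 : ∀ z : ZMod 2, z = 0 ∨ z = 1 := by decide
  rcases h0 a with rfl | rfl <;> rcases h0 b with rfl | rfl <;> simp [sgn, h]

lemma sgn_sq (a : ZMod 2) : sgn a * sgn a = 1 := by unfold sgn; split_ifs <;> simp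

noncomputable def cl (x y : W 9) : ℂ := sgn (∑ j, if ∀ k ≤ j, x k = y k then x j else 0)

lemma cl_pot : Pot (cay bas) cl := by
  intro x y _
  have : cl y x = cl x y := by
    unfold cl
    congr 1
    refine sum_congr rfl fun j _ => ?_
    simp only [eq_comm (a := y _)]
    split_ifs with h
    · exact (h j le_rfl).symm
    · rfl
  rw [this]
  unfold cl sgn
  split_ifs <;> simp

lemma low : 6 ≤ nu (cay bas) := by
  refine le_trans ?_ (lam_le_nu _ _ 0 cl_pot)
  obtain ⟨t, -, ht⟩ := eig_deg _ _ cl_pot 0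
  refine le_csInf ⟨t, ht⟩ ?_
  rintro t ⟨f, hf, h⟩
  let a : Fin 9 → W 9 → ℂ := fun i x => sgn (∑ j, if j < i then x j else 0)
  have ha : ∀ x i, cl x (x + bas i) = a i x := by
    intro x i
    simp only [cl, a]
    congr 1
    refine sum_congr rfl fun j _ => if_congr ⟨fun h => ?_, fun h k hk => ?_⟩ rfl rfl
    · by_contra hn
      simpa [bas] using h i (not_lt.1 hn)
    · have : k ≠ i := (lt_of_le_of_lt hk h).ne
      simp [bas, this]
  have hb : ∀ x i k, a i (x + bas k) = a i x * if k < i then -1 else 1 := by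
    intro x i k
    have : (∑ j, if j < i then (x + bas k) j else 0) =
        (∑ j, if j < i then x j else 0) + if k < i then 1 else 0 := by
      rw [← sum_ite_eq_of_mem univ k (fun j => if j < i then (1 : ZMod 2) else 0) (mem_univ k),
        ← sum_add_distrib]
      refine sum_congr rfl fun j _ => ?_
      by_cases e : k = j
      · subst e; split_ifs <;> simp_all [bas]
      · simp [bas, e, Ne.symm e]
    simp only [a, this, sgn_add]
    split_ifs <;> simp [sgn]
  have h1 : ∀ x, ∑ i, a i x * f (x + bas i) = (9 - t) * f x := by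
    intro x
    have := h x
    rw [nsum bas0 basi x fun y => f x - cl x y * f y] at this
    simp only [ha, sum_sub_distrib, sum_const, card_univ, Fintype.card_fin, nsmul_eq_mul] at this
    push_cast at this
    linear_combination -this
  obtain ⟨x, hx⟩ := Function.ne_iff.1 hf
  let T : Fin 9 → Fin 9 → ℂ := fun i j => a i x * (a j (x + bas i) * f (x + bas i + bas j))
  have h2 : ∑ i, ∑ j, T i j = (9 - t) ^ 2 * f x := by
    simp only [T, ← Finset.mul_sum, h1]
    rw [sq, mul_assoc, ← h1 x, Finset.mul_sum]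
    exact sum_congr rfl fun i _ => by ring
  have h3 : ∀ i j, T i j + T j i = if i = j then 2 * f x else 0 := by
    intro i j
    simp only [T, hb]
    rcases lt_trichotomy i j with l | rfl | l
    · rw [if_pos l, if_neg l.not_gt, if_neg l.ne, add_right_comm x (bas j)]; ring
    · rw [if_neg (lt_irrefl _), if_pos rfl, two]
      have := sgn_sq (∑ j, if j < i then x j else 0)
      linear_combination 2 * f x * this
    · rw [if_pos l, if_neg l.not_gt, if_neg l.ne', add_right_comm x (bas j)]; ring
  have h4 : ∑ i, ∑ j, T i j + ∑ i, ∑ j, T i j = 18 * f x := by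
    nth_rewrite 2 [sum_comm]
    simp only [← sum_add_distrib, h3, sum_ite_eq, mem_univ, if_true, sum_const, card_univ,
      Fintype.card_fin, nsmul_eq_mul]
    push_cast; ring
  have h5 : (((9 - t) ^ 2 : ℝ) : ℂ) = (9 : ℝ) := by
    apply mul_right_cancel₀ hx
    push_cast
    linear_combination (1 / 2 : ℂ) * h4 - h2
  have h6 : (9 - t) ^ 2 = 9 := by exact_mod_cast h5
  nlinarith

noncomputable def hol (a : Fin 9 → W 7 → ℂ) : W 7 → List (Fin 9) → ℂ
  | _, [] => 1
  | x, i :: l => a i x * hol a (x + gen i) l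

lemma hol_append (a : Fin 9 → W 7 → ℂ) (l l' : List (Fin 9)) : ∀ x,
    hol a x (l ++ l') = hol a x l * hol a (x + (l.map gen).sum) l' := by
  induction l with
  | nil => simp [hol]
  | cons i l ih => intro x; simp [hol, ih, mul_assoc, add_assoc]

def eps (i j : Fin 9) : ℤ := if i = j then 1 else -1

lemma eps_norm (i : Fin 9) (l : List (Fin 9)) : ‖(((l.map (eps i)).prod : ℤ) : ℂ)‖ = 1 := by
  induction l with
  | nil => simp
  | cons j l ih =>
    rw [List.map_cons, List.prod_cons, Int.cast_mul, norm_mul, ih]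
    unfold eps; split_ifs <;> simp

lemma defect (a : Fin 9 → W 7 → ℂ) (h1 : ∀ i x, ‖a i x‖ = 1) : ∃ x i j, i ≠ j ∧
    1 / 20 ≤ ‖a i x * a j (x + gen i) + a j x * a i (x + gen j)‖ := by
  by_contra hn
  push Not at hn
  have n1 : ∀ l x, ‖hol a x l‖ = 1 := by
    intro l
    induction l with
    | nil => simp [hol]
    | cons i l ih => intro x; simp [hol, ih, h1]
  have sw : ∀ x i j, ‖a i x * a j (x + gen i) - eps i j * (a j x * a i (x + gen j))‖ ≤ 1 / 20 := by
    intro x i j
    by_cases e : i = j
    · subst e; simp [eps]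
    · simpa [eps, e] using (hn x i j e).le
  have mv : ∀ i l' l x, ‖hol a x (i :: l ++ l') - (l.map (eps i)).prod * hol a x (l ++ i :: l')‖ ≤
      l.length / 20 := by
    intro i l' l
    induction l with
    | nil => simp
    | cons j l ih =>
      intro x
      have e : hol a x (i :: (j :: l) ++ l') -
          (((j :: l).map (eps i)).prod : ℤ) * hol a x ((j :: l) ++ i :: l') =
          (a i x * a j (x + gen i) - eps i j * (a j x * a i (x + gen j))) *
            hol a (x + gen j + gen i) (l ++ l') + (eps i j * a j x) *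
            (hol a (x + gen j) (i :: l ++ l') -
              (l.map (eps i)).prod * hol a (x + gen j) (l ++ i :: l')) := by
        simp only [List.cons_append, hol, List.map_cons, List.prod_cons, Int.cast_mul,
          add_right_comm x (gen i)]
        ring
      have e2 : ‖(eps i j : ℂ)‖ = 1 := by simpa using eps_norm i [j]
      rw [e]
      refine (norm_add_le _ _).trans ?_
      rw [norm_mul, norm_mul, norm_mul, n1, e2, h1, List.length_cons]
      have := sw x i j
      have := ih (x + gen j)
      rw [Nat.cast_succ]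
      linarith
  have mm : ∀ q p l' x, ‖hol a x (p ++ q ++ l') -
      (p.map fun i => (q.map (eps i)).prod).prod * hol a x (q ++ p ++ l')‖ ≤
      p.length * q.length / 20 := by
    intro q p
    induction p with
    | nil => simp
    | cons i p ih =>
      intro l' x
      have e : hol a x ((i :: p) ++ q ++ l') -
          (((i :: p).map fun i => (q.map (eps i)).prod).prod : ℤ) * hol a x (q ++ (i :: p) ++ l') =
          a i x * (hol a (x + gen i) (p ++ q ++ l') - (p.map fun i => (q.map (eps i)).prod).prod *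
            hol a (x + gen i) (q ++ p ++ l')) + (p.map fun i => (q.map (eps i)).prod).prod *
            (hol a x (i :: q ++ (p ++ l')) -
              (q.map (eps i)).prod * hol a x (q ++ i :: (p ++ l'))) := by
        simp only [List.cons_append, hol, List.map_cons, List.prod_cons, Int.cast_mul,
          List.append_assoc]
        ring
      have e2 : ∀ p : List (Fin 9), ‖(((p.map fun i => (q.map (eps i)).prod).prod : ℤ) : ℂ)‖ = 1 := by
        intro p
        induction p with
        | nil => simp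
        | cons j p ih => rw [List.map_cons, List.prod_cons, Int.cast_mul, norm_mul, ih, eps_norm, one_mul]
      rw [e]
      refine (norm_add_le _ _).trans ?_
      rw [norm_mul, norm_mul, e2, h1, List.length_cons]
      have := mv i (p ++ l') q x
      have := ih l' (x + gen i)
      rw [Nat.cast_succ]
      linarith
  have k := mm [3, 4, 5, 6, 7, 8] [0, 1, 2, 3, 4, 5] [] 0
  have s1 : (([0, 1, 2, 3, 4, 5] : List (Fin 9)).map gen).sum = 0 := by decide
  have s2 : (([3, 4, 5, 6, 7, 8] : List (Fin 9)).map gen).sum = 0 := by decide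
  have s3 : (([0, 1, 2, 3, 4, 5] : List (Fin 9)).map fun i =>
    (([3, 4, 5, 6, 7, 8] : List (Fin 9)).map (eps i)).prod).prod = -1 := by decide
  rw [List.append_nil, List.append_nil, hol_append, hol_append, s1, s2, s3, add_zero,
    mul_comm (hol a 0 [3, 4, 5, 6, 7, 8])] at k
  have : ∀ z : ℂ, z - ((-1 : ℤ) : ℂ) * z = 2 * z := fun z => by push_cast; ring
  rw [this, norm_mul, norm_mul, n1, n1] at k
  norm_num at k

lemma high : nu (cay gen) ≤ 6 - 1 / 200 := by
  refine Real.sSup_le ?_ (by norm_num)
  rintro t ⟨s, hs, rfl⟩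
  have ad : ∀ x i, (cay gen).Adj x (x + gen i) := fun x i => (adj gen0 _ _).2 ⟨i, rfl⟩
  obtain ⟨x, i, j, hij, h⟩ := defect (fun i x => s x (x + gen i)) fun i x => (hs _ _ (ad x i)).1
  have pa : ∀ (x : W 7) i, ∑ k, (x + gen i) k = ∑ k, x k + 1 := by
    intro x i
    simp only [Pi.add_apply, sum_add_distrib, genp]
  refine up hs (fun z => ∑ k, z k = ∑ k, x k) (fun a b hab => ?_) (fun a => ?_) x
    (x + gen i + gen j) (fun e => ?_) rfl ?_ ?_
  · obtain ⟨k, rfl⟩ := (adj gen0 _ _).1 hab
    rw [pa]
    generalize ∑ k, a k = u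
    generalize ∑ k, x k = v
    revert u v; decide
  · rw [← SimpleGraph.card_neighborFinset_eq_degree, card_eq_sum_ones, nsum gen0 geni]; simp
  · have := congrArg (· + gen j) e
    simp only [two] at this
    exact hij (geni (add_left_cancel this)).symm
  · rw [pa, pa, add_assoc, CharTwo.add_self_eq_zero, add_zero]
  · rw [nsum gen0 geni, sum_eq_add i j hij (fun k _ hk => if_neg fun ha => ?_) (by simp) (by simp),
      if_pos (ad _ _), add_right_comm x (gen i), if_pos (ad _ _)]
    · rw [add_right_comm x (gen i)] at h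
      exact h
    · obtain ⟨l, hl⟩ := (adj gen0 _ _).1 ha
      rw [add_assoc, add_assoc] at hl
      rcases gens i j k l hij (add_left_cancel hl) with e | e
      · exact hk.1 e
      · exact hk.2 e

def proj (x : W 9) : W 7 := ∑ i, x i • gen i

lemma proj_add (x : W 9) (i : Fin 9) : proj (x + bas i) = proj x + gen i := by
  simp [proj, add_smul, sum_add_distrib, bas, Pi.single_apply]

lemma proj_surj : Function.Surjective proj := by
  intro y
  refine ⟨![y 0, y 1, y 2, y 3, y 4, 0, y 5, y 6, 0], ?_⟩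
  ext k
  fin_cases k <;> simp [proj, gen, Fin.sum_univ_succ]

lemma proj_bij (x : W 9) :
    Set.BijOn proj ((cay bas).neighborSet x) ((cay gen).neighborSet (proj x)) := by
  refine ⟨fun y hy => ?_, fun y hy z hz e => ?_, fun y hy => ?_⟩
  · obtain ⟨i, rfl⟩ := (adj bas0 _ _).1 hy
    exact (adj gen0 _ _).2 ⟨i, proj_add x i⟩
  · obtain ⟨i, rfl⟩ := (adj bas0 _ _).1 hy
    obtain ⟨j, rfl⟩ := (adj bas0 _ _).1 hz
    rw [proj_add, proj_add] at e
    rw [geni (add_left_cancel e)]
  · obtain ⟨i, rfl⟩ := (adj gen0 _ _).1 hy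
    exact ⟨x + bas i, (adj bas0 _ _).2 ⟨i, rfl⟩, proj_add x i⟩

end Pool.Agent.H.MP_cbccc2_co
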